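import Pool.Agent.H21.CV.Targets

/-!
# Row LFF of the board cvz_modules: the three directions
-/

namespace Pool.Agent.H32.CV.LFF

open Finset MvPolynomial Pool.Agent.H31.RZ Pool.Agent.H21.CV

theorem trf_lf {m : ℕ} (z B : Matrix (Fin m) (Fin m) ℤ) (i : Fin m) :
    trf B (lf z i) = ∑ k, C ((z * B) i k) * X k := by
  unfold trf lf
  rw [map_sum]
  simp only [map_mul, aeval_C, aeval_X, algebraMap_eq, Matrix.mul_apply, map_sum, Finset.mul_sum,
    Finset.sum_mul]
  rw [Finset.sum_comm]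
  refine Finset.sum_congr rfl fun k _ => Finset.sum_congr rfl fun j _ => ?_
  ring

theorem coeff_lf {m : ℕ} (z : Matrix (Fin m) (Fin m) ℤ) (i j : Fin m) :
    (lf z i).coeff (Finsupp.single j 1) = z i j := by
  classical
  unfold lf
  rw [coeff_sum, Finset.sum_eq_single j]
  · rw [coeff_C_mul, coeff_X, if_pos rfl, mul_one]
  · intro k _ hk
    rw [coeff_C_mul, coeff_X, if_neg, mul_zero]
    intro h
    exact hk (Finsupp.single_left_injective one_ne_zero h)
  · intro h
    exact absurd (Finset.mem_univ j) h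

theorem hom_lf {m : ℕ} (z : Matrix (Fin m) (Fin m) ℤ) (i : Fin m) : (lf z i).IsHomogeneous 1 := by
  unfold lf
  refine IsHomogeneous.sum _ _ _ fun j _ => ?_
  have h := (isHomogeneous_C (Fin m) (z i j)).mul (isHomogeneous_X ℤ j)
  rwa [zero_add] at h

theorem step {n : ℕ} (z : Matrix (Fin n) (Fin n) ℤ) (i : Fin n) (V : ℕ) (hV : ∀ j, |z i j| ≤ V)
    (p : MvPolynomial (Fin n) ℤ) (B : ℕ) (hB : ∀ μ, |p.coeff μ| ≤ B) (μ : Fin n →₀ ℕ) :
    |(lf z i * p).coeff μ| ≤ ((n * V * B : ℕ) : ℤ) := by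
  classical
  unfold lf
  rw [Finset.sum_mul, coeff_sum]
  refine (Finset.abs_sum_le_sum_abs _ _).trans ?_
  have h : ∀ j ∈ (Finset.univ : Finset (Fin n)), |(C (z i j) * X j * p).coeff μ| ≤
      (V : ℤ) * B := by
    intro j _
    rw [mul_assoc, coeff_C_mul, abs_mul]
    refine mul_le_mul (hV j) ?_ (abs_nonneg _) (by positivity)
    rw [coeff_X_mul']
    split_ifs
    · exact hB _
    · rw [abs_zero]
      positivity
  refine (Finset.sum_le_sum h).trans ?_
  rw [Finset.sum_const, Finset.card_univ, Fintype.card_fin, nsmul_eq_mul]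
  push_cast
  rw [mul_assoc]

theorem pow_bound {n : ℕ} (z : Matrix (Fin n) (Fin n) ℤ) (i : Fin n) (V : ℕ)
    (hV : ∀ j, |z i j| ≤ V) (d : ℕ) (μ : Fin n →₀ ℕ) :
    |(lf z i ^ d).coeff μ| ≤ (((n * V) ^ d : ℕ) : ℤ) := by
  classical
  induction d generalizing μ with
  | zero =>
    rw [pow_zero, pow_zero, coeff_one]
    split_ifs
    · simp
    · simp
  | succ d ih =>
    rw [pow_succ', pow_succ']
    exact step z i V hV _ _ ih μ

theorem pf_LFF : T_LFF := by
  refine ⟨fun m z i => ⟨?_, fun hdet h0 => ?_⟩, fun m d => ⟨(m + 2) ^ d, Nat.one_le_pow _ _ (by omega),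
    fun z V hV => ?_⟩⟩
  · rw [trf_lf, Matrix.mul_adjugate]
    rw [Finset.sum_eq_single i]
    · rw [Matrix.smul_apply, Matrix.one_apply_eq, smul_eq_mul, mul_one]
    · intro k _ hk
      rw [Matrix.smul_apply, Matrix.one_apply_ne hk.symm, smul_zero, C_0, zero_mul]
    · intro h
      exact absurd (Finset.mem_univ i) h
  · apply hdet
    apply Matrix.det_eq_zero_of_row_eq_zero i
    intro j
    rw [← coeff_lf z i j, h0, coeff_zero]
  · have hV0 : ∀ j, |z 0 j| ≤ V := fun j => (hV j).1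
    have hV1 : ∀ j, |z 1 j| ≤ V := fun j => (hV j).2
    have e1 : (m + 2) ^ d * V ^ d = ((m + 2) * V) ^ d := (mul_pow _ _ _).symm
    rw [e1]
    refine ⟨?_, ?_, fun hd => ?_⟩
    · rw [mem_FF]
      refine ⟨?_, fun μ => pow_bound z 0 V hV0 d μ⟩
      have h := (hom_lf z 0).pow d
      rwa [one_mul] at h
    · rw [mem_FF]
      refine ⟨?_, fun μ => pow_bound z 1 V hV1 d μ⟩
      have h := (hom_lf z 1).pow d
      rwa [one_mul] at h
    · rw [mem_FF]
      obtain ⟨k, rfl⟩ : ∃ k, d = k + 2 := ⟨d - 2, by omega⟩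
      rw [Nat.add_sub_cancel]
      refine ⟨?_, fun μ => ?_⟩
      · have h := ((hom_lf z 0).mul (hom_lf z 1)).mul ((hom_lf z 0).pow k)
        rwa [one_mul, show 1 + 1 + k = k + 2 by ring] at h
      · rw [mul_assoc]
        have h := step z 0 V hV0 (lf z 1 * lf z 0 ^ k) _
          (step z 1 V hV1 (lf z 0 ^ k) _ (pow_bound z 0 V hV0 k)) μ
        refine h.trans (le_of_eq ?_)
        congr 1
        ring

end Pool.Agent.H32.CV.LFF
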