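import Pool.Agent.H21.CV.Targets

/-!
# Row MON of the board cvz_modules: reduction to monic data
-/

namespace Pool.Agent.H32.CV.MON

open Finset MvPolynomial Pool.Agent.H31.RZ Pool.Agent.H21.CV

/-- the coefficient of the pure power of the last variable -/
noncomputable def lc (w : MvPolynomial (Fin 3) ℤ) (e : ℕ) : ℤ := w.coeff (Finsupp.single 2 e)

/-- the coefficients of the monic form -/
noncomputable def cf (w : MvPolynomial (Fin 3) ℤ) (e : ℕ) (μ : Fin 3 →₀ ℕ) : ℤ :=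
  if μ 2 = e then 1 else w.coeff μ * lc w e ^ (e - 1 - μ 2)

/-- the monic form -/
noncomputable def mw (w : MvPolynomial (Fin 3) ℤ) (e : ℕ) : MvPolynomial (Fin 3) ℤ :=
  ∑ μ ∈ w.support, monomial μ (cf w e μ)

theorem deg3 (μ : Fin 3 →₀ ℕ) : μ.degree = μ 0 + μ 1 + μ 2 := by
  rw [Finsupp.degree_eq_sum, Fin.sum_univ_three]

theorem supp_deg {w : MvPolynomial (Fin 3) ℤ} {e : ℕ} (hw : w.IsHomogeneous e) {μ : Fin 3 →₀ ℕ}
    (hμ : μ ∈ w.support) : μ.degree = e := by
  by_contra h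
  exact mem_support_iff.1 hμ (hw.coeff_eq_zero h)

theorem eq_single {e : ℕ} {μ : Fin 3 →₀ ℕ} (hd : μ.degree = e) (h2 : μ 2 = e) :
    μ = Finsupp.single 2 e := by
  rw [deg3] at hd
  ext i
  fin_cases i
  · simp only [Fin.zero_eta]
    rw [Finsupp.single_eq_of_ne (by decide)]
    omega
  · simp only [Fin.mk_one]
    rw [Finsupp.single_eq_of_ne (by decide)]
    omega
  · simp only [Fin.reduceFinMk]
    rw [Finsupp.single_eq_same]
    omega

theorem mw_coeff (w : MvPolynomial (Fin 3) ℤ) (e : ℕ) (ν : Fin 3 →₀ ℕ) :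
    (mw w e).coeff ν = if ν ∈ w.support then cf w e ν else 0 := by
  classical
  unfold mw
  rw [coeff_sum]
  by_cases h : ν ∈ w.support
  · rw [if_pos h, Finset.sum_eq_single ν]
    · rw [coeff_monomial, if_pos rfl]
    · intro μ _ hμ
      rw [coeff_monomial, if_neg hμ]
    · intro h'
      exact absurd h h'
  · rw [if_neg h]
    refine Finset.sum_eq_zero fun μ hμ => ?_
    rw [coeff_monomial, if_neg]
    intro he
    exact h (he ▸ hμ)

theorem mw_hom {w : MvPolynomial (Fin 3) ℤ} {e : ℕ} (hw : w.IsHomogeneous e) :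
    (mw w e).IsHomogeneous e := by
  unfold mw
  exact IsHomogeneous.sum _ _ _ fun μ hμ => isHomogeneous_monomial _ (supp_deg hw hμ)

theorem mw_one {w : MvPolynomial (Fin 3) ℤ} {e : ℕ} (hc : lc w e ≠ 0) :
    (mw w e).coeff (Finsupp.single 2 e) = 1 := by
  rw [mw_coeff, if_pos (mem_support_iff.2 hc)]
  unfold cf
  rw [if_pos]
  exact Finsupp.single_eq_same

theorem mw_eval {w : MvPolynomial (Fin 3) ℤ} {e : ℕ} (he : 1 ≤ e) (hw : w.IsHomogeneous e)
    (a b t : ℤ) : eval ![a, b, lc w e * t] (mw w e) = lc w e ^ (e - 1) * eval ![a, b, t] w := by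
  unfold mw
  rw [map_sum, eval_eq', Finset.mul_sum]
  refine Finset.sum_congr rfl fun μ hμ => ?_
  rw [eval_monomial, Finsupp.prod_fintype _ _ (fun i => pow_zero _), Fin.prod_univ_three,
    Fin.prod_univ_three]
  simp only [Matrix.cons_val_zero, Matrix.cons_val_one, Matrix.cons_val]
  have hd := supp_deg hw hμ
  unfold cf
  by_cases h2 : μ 2 = e
  · rw [if_pos h2]
    have h3 : w.coeff μ = lc w e := by rw [eq_single hd h2]; rfl
    rw [h3, mul_pow, h2]
    obtain ⟨k, rfl⟩ : ∃ k, e = k + 1 := ⟨e - 1, by omega⟩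
    rw [Nat.add_sub_cancel]
    ring
  · rw [if_neg h2]
    rw [deg3] at hd
    obtain ⟨k, hk⟩ : ∃ k, e - 1 - μ 2 = k := ⟨_, rfl⟩
    have h4 : e - 1 = k + μ 2 := by omega
    rw [hk, h4, mul_pow]
    ring

theorem mw_bound {w : MvPolynomial (Fin 3) ℤ} {e D K H : ℕ} (hH : 1 ≤ H) (heD : e ≤ D)
    (hb : ∀ μ, |w.coeff μ| ≤ (H : ℤ) ^ K) (μ : Fin 3 →₀ ℕ) :
    |(mw w e).coeff μ| ≤ (H : ℤ) ^ (K * (D + 1)) := by
  have hH' : (1 : ℤ) ≤ H := by exact_mod_cast hH
  rw [mw_coeff]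
  split_ifs
  · unfold cf
    split_ifs
    · rw [abs_one]
      exact one_le_pow₀ hH'
    · rw [abs_mul, abs_pow]
      calc |w.coeff μ| * |lc w e| ^ (e - 1 - μ 2) ≤ (H : ℤ) ^ K * ((H : ℤ) ^ K) ^ (e - 1 - μ 2) := by
            refine mul_le_mul (hb μ) (pow_le_pow_left₀ (abs_nonneg _) (hb _) _) (by positivity)
              (by positivity)
        _ = (H : ℤ) ^ (K * ((e - 1 - μ 2) + 1)) := by
            rw [← pow_mul, ← pow_add]
            congr 1
            ring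
        _ ≤ _ := by
            apply pow_le_pow_right₀ hH'
            exact Nat.mul_le_mul_left _ (by omega)
  · rw [abs_zero]
    positivity

theorem pf_MON : T_MON := by
  intro hM m d D K ε hd hε
  obtain ⟨C, hC, h⟩ := hM m d D (2 * K + K * (D + 1)) ε hd hε
  refine ⟨C, hC, fun H V z e w hH hV hD hz hV01 hw => ?_⟩
  have hH' : (1 : ℤ) ≤ H := by exact_mod_cast hH
  obtain ⟨hdet, hDe⟩ := hD
  have hc : ∀ i, lc (w i) (e i) ≠ 0 := fun i => (hDe i).2.2.2
  set a : Fin (m + 2) → ℤ := Fin.cons 1 (Fin.cons 1 fun i => lc (w i) (e i)) with ha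
  have ha0 : a 0 = 1 := rfl
  have ha1 : a 1 = 1 := rfl
  have has : ∀ i : Fin m, a i.succ.succ = lc (w i) (e i) := fun i => rfl
  set z' : Matrix (Fin (m + 2)) (Fin (m + 2)) ℤ := Matrix.of fun i j => a i * z i j with hz'
  have hz'v : ∀ i j, z' i j = a i * z i j := fun i j => rfl
  have hmv : ∀ (x : Fin (m + 2) → ℤ) i, z'.mulVec x i = a i * z.mulVec x i := by
    intro x i
    simp only [Matrix.mulVec, dotProduct, hz'v]
    rw [Finset.mul_sum]
    exact Finset.sum_congr rfl fun j _ => by ring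
  have hane : ∀ i, a i ≠ 0 := by
    intro i
    refine Fin.cases ?_ (fun i => Fin.cases ?_ (fun i => ?_) i) i
    · rw [ha0]
      exact one_ne_zero
    · change a 1 ≠ 0
      rw [ha1]
      exact one_ne_zero
    · rw [has]
      exact hc i
  have habs : ∀ i, |a i| ≤ (H : ℤ) ^ K := by
    intro i
    refine Fin.cases ?_ (fun i => Fin.cases ?_ (fun i => ?_) i) i
    · rw [ha0, abs_one]
      exact one_le_pow₀ hH'
    · change |a 1| ≤ _
      rw [ha1, abs_one]
      exact one_le_pow₀ hH'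
    · rw [has]
      exact hw i _
  have hMd : IsM D z' e (fun i => mw (w i) (e i)) := by
    refine ⟨?_, fun i => ⟨(hDe i).1, (hDe i).2.1, mw_hom (hDe i).2.2.1, mw_one (hc i)⟩⟩
    rw [hz', Matrix.det_mul_column]
    exact mul_ne_zero (Finset.prod_ne_zero_iff.2 fun i _ => hane i) hdet
  have hzb : ∀ i j, |z' i j| ≤ (H : ℤ) ^ (2 * K + K * (D + 1)) := by
    intro i j
    rw [hz'v, abs_mul]
    calc |a i| * |z i j| ≤ (H : ℤ) ^ K * (H : ℤ) ^ K :=
          mul_le_mul (habs i) (hz i j) (abs_nonneg _) (by positivity)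
      _ = (H : ℤ) ^ (2 * K) := by rw [← pow_add]; congr 1; ring
      _ ≤ _ := pow_le_pow_right₀ hH' (Nat.le_add_right _ _)
  have hV' : ∀ j, |z' 0 j| ≤ V ∧ |z' 1 j| ≤ V := by
    intro j
    rw [hz'v, hz'v, ha0, ha1, one_mul, one_mul]
    exact hV01 j
  have hwb : ∀ i μ, |(mw (w i) (e i)).coeff μ| ≤ (H : ℤ) ^ (2 * K + K * (D + 1)) := by
    intro i μ
    exact (mw_bound hH (hDe i).2.1 (hw i) μ).trans (pow_le_pow_right₀ hH' (Nat.le_add_left _ _))
  refine le_trans ?_ (h H V z' e _ hH hV hMd hzb hV' hwb)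
  have hfin : {f | f ∈ FF (m + 1) d H ∧ ∃ x : Fin (m + 2) → ℤ, x ≠ 0 ∧
      OnC z' (fun i => mw (w i) (e i)) x ∧ eval x f = 0}.Finite :=
    (FF (m + 1) d H).finite_toSet.subset fun f hf => hf.1
  exact_mod_cast Set.ncard_le_ncard (by
    rintro f ⟨hf, x, hx, hon, h0⟩
    refine ⟨hf, x, hx, fun i => ?_, h0⟩
    rw [hmv, hmv, hmv, ha0, ha1, has, one_mul, one_mul, mw_eval (hDe i).1 (hDe i).2.2.1, hon i,
      mul_zero]) hfin

end Pool.Agent.H32.CV.MON
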