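import Pool.Agent.H21.CV.Targets

/-!
# Row PRM of the board cvz_modules: passing to coprime first coordinates
-/

namespace Pool.Agent.H32.CV.PRM

open Finset MvPolynomial Pool.Agent.H31.RZ Pool.Agent.H21.CV

theorem smul3 (c a b t : ℤ) : (![c * a, c * b, c * t] : Fin 3 → ℤ) = c • ![a, b, t] := by
  funext i
  fin_cases i <;> rfl

theorem deg3 (μ : Fin 3 →₀ ℕ) : μ.degree = μ 0 + μ 1 + μ 2 := by
  rw [Finsupp.degree_eq_sum, Fin.sum_univ_three]

/-- all monomials but the pure power are divisible by a common divisor of the first coordinates -/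
theorem dvd_sub {w : MvPolynomial (Fin 3) ℤ} {e : ℕ} (hw : w.IsHomogeneous e)
    (h1 : w.coeff (Finsupp.single 2 e) = 1) (n x y t : ℤ) (hx : n ∣ x) (hy : n ∣ y) :
    n ∣ eval ![x, y, t] w - t ^ e := by
  classical
  have hmem : Finsupp.single 2 e ∈ w.support := by
    rw [mem_support_iff, h1]
    exact one_ne_zero
  rw [eval_eq', ← Finset.add_sum_erase _ _ hmem, h1]
  have e1 : ∏ i : Fin 3, (![x, y, t] : Fin 3 → ℤ) i ^ (Finsupp.single (2 : Fin 3) e) i = t ^ e := by
    rw [Fin.prod_univ_three]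
    simp
  rw [e1, one_mul, add_sub_cancel_left]
  refine Finset.dvd_sum fun μ hμ => ?_
  rw [Finset.mem_erase] at hμ
  have hd : μ.degree = e := by
    by_contra h
    exact mem_support_iff.1 hμ.2 (hw.coeff_eq_zero h)
  rw [deg3] at hd
  have hpos : 0 < μ 0 ∨ 0 < μ 1 := by
    by_contra hcon
    push Not at hcon
    apply hμ.1
    ext i
    fin_cases i
    · simp only [Fin.zero_eta]
      rw [Finsupp.single_eq_of_ne (by decide)]
      omega
    · simp only [Fin.mk_one]
      rw [Finsupp.single_eq_of_ne (by decide)]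
      omega
    · simp only [Fin.reduceFinMk]
      rw [Finsupp.single_eq_same]
      omega
  refine Dvd.dvd.mul_left ?_ _
  rw [Fin.prod_univ_three]
  simp only [Matrix.cons_val_zero, Matrix.cons_val_one, Matrix.cons_val]
  rcases hpos with h | h
  · exact ((hx.trans (dvd_pow_self x h.ne')).mul_right _).mul_right _
  · exact ((hy.trans (dvd_pow_self y h.ne')).mul_left _).mul_right _

/-- the last coordinate is divisible by a common divisor of the first two -/
theorem dvd_last {w : MvPolynomial (Fin 3) ℤ} {e : ℕ} (_he : 1 ≤ e) (hw : w.IsHomogeneous e)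
    (h1 : w.coeff (Finsupp.single 2 e) = 1) (g a b t : ℤ) (hg : g ≠ 0)
    (h0 : eval ![g * a, g * b, t] w = 0) : g ∣ t := by
  obtain ⟨g', t', hcop, hgg, htt⟩ : ∃ g' t' : ℤ, IsCoprime g' t' ∧ g = (Int.gcd g t : ℤ) * g' ∧
      t = (Int.gcd g t : ℤ) * t' := by
    refine ⟨g / Int.gcd g t, t / Int.gcd g t, ?_, ?_, ?_⟩
    · rw [Int.isCoprime_iff_gcd_eq_one]
      exact Int.gcd_ediv_gcd_ediv_gcd (Int.gcd_pos_of_ne_zero_left t hg)
    · exact (Int.mul_ediv_cancel' (Int.gcd_dvd_left ..)).symm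
    · exact (Int.mul_ediv_cancel' (Int.gcd_dvd_right ..)).symm
  set h : ℤ := (Int.gcd g t : ℤ) with hh
  have hh0 : h ≠ 0 := by
    rw [hh]
    exact_mod_cast (Int.gcd_pos_of_ne_zero_left t hg).ne'
  have e1 : (![g * a, g * b, t] : Fin 3 → ℤ) = h • ![g' * a, g' * b, t'] := by
    rw [← smul3, ← htt, ← mul_assoc, ← mul_assoc, ← hgg]
  rw [e1, eval_smul' hw] at h0
  have h2 : eval ![g' * a, g' * b, t'] w = 0 :=
    (mul_eq_zero.mp h0).resolve_left (pow_ne_zero _ hh0)
  have h3 := dvd_sub hw h1 g' (g' * a) (g' * b) t' (dvd_mul_right _ _) (dvd_mul_right _ _)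
  rw [h2, zero_sub, dvd_neg] at h3
  have h4 : IsUnit g' := (hcop.pow_right (n := e)).isUnit_of_dvd' dvd_rfl h3
  obtain ⟨u, hu⟩ := h4
  rw [htt]
  rw [show g = h * g' from hgg, ← hu]
  exact mul_dvd_mul_left h (Units.coe_dvd)

theorem pf_PRM : T_PRM := by
  intro m e w y hw hy h0
  set g : ℤ := (Int.gcd (y 0) (y 1) : ℤ) with hg
  have hg0 : g ≠ 0 := by
    intro hcon
    have h1 : Int.gcd (y 0) (y 1) = 0 := by
      rw [hg] at hcon
      exact_mod_cast hcon
    obtain ⟨h2, h3⟩ := Int.gcd_eq_zero_iff.mp h1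
    apply hy
    funext j
    refine Fin.cases h2 (fun j => Fin.cases h3 (fun i => ?_) j) j
    obtain ⟨he, hwi, hc⟩ := hw i
    have h4 := dvd_sub hwi hc 0 (y 0) (y 1) (y i.succ.succ) (by rw [h2]) (by rw [h3])
    rw [h0 i, zero_sub, dvd_neg, zero_dvd_iff] at h4
    exact (pow_eq_zero_iff (by omega)).mp h4
  have hdv : ∀ j, g ∣ y j := by
    intro j
    refine Fin.cases (Int.gcd_dvd_left ..) (fun j => Fin.cases (Int.gcd_dvd_right ..)
      (fun i => ?_) j) j
    obtain ⟨he, hwi, hc⟩ := hw i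
    obtain ⟨a, ha⟩ : g ∣ y 0 := Int.gcd_dvd_left ..
    obtain ⟨b, hb⟩ : g ∣ y 1 := Int.gcd_dvd_right ..
    refine dvd_last he hwi hc g a b _ hg0 ?_
    rw [← ha, ← hb]
    exact h0 i
  refine ⟨g, fun j => y j / g, hg0, ?_, ?_, ?_⟩
  · funext j
    exact (Int.mul_ediv_cancel' (hdv j)).symm
  · rw [Int.isCoprime_iff_gcd_eq_one]
    refine Int.gcd_ediv_gcd_ediv_gcd (Nat.pos_of_ne_zero ?_)
    intro hcon
    rw [hg, hcon] at hg0
    exact hg0 rfl
  · intro i
    obtain ⟨he, hwi, hc⟩ := hw i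
    have h1 := h0 i
    have e1 : (![y 0, y 1, y i.succ.succ] : Fin 3 → ℤ) =
        g • ![y 0 / g, y 1 / g, y i.succ.succ / g] := by
      rw [← smul3, Int.mul_ediv_cancel' (hdv _), Int.mul_ediv_cancel' (hdv _),
        Int.mul_ediv_cancel' (hdv _)]
    rw [e1, eval_smul' hwi] at h1
    exact (mul_eq_zero.mp h1).resolve_left (pow_ne_zero _ hg0)

end Pool.Agent.H32.CV.PRM
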